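import Pool.Agent.Helper88.MU.Stm

/-!
# The place given by the classes of the functions
-/

set_option autoImplicit false
set_option linter.unusedSectionVars false



namespace Pool.Agent.Helper88.MU

variable {k L R : Type} [Field k] [CharZero k] [Field L] [Field R] [Algebra k L] [Algebra L R]
  [Algebra k R] [IsScalarTower k L R]

/-- the class of `x` is `a` -/
def Cl (R : Type) [Field R] [Algebra L R] [Algebra k R] (x : L) (a : k) : Prop :=
  ∃ w : R, algebraMap L R x = algebraMap k R a * w ^ 2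

/-- the classes of `x - c` are those of the rational point `θ` -/
def V (R : Type) [Field R] [Algebra L R] [Algebra k R] (x : L) (θ : k) : Prop :=
  ∀ c : k, c ≠ θ → x ≠ algebraMap k L c ∧ Cl R (x - algebraMap k L c) (θ - c)

/-- the classes of `x - c` are those of infinity -/
def I (k R : Type) [Field k] [Field R] [Algebra k L] [Algebra L R] [Algebra k R] (x : L) : Prop :=
  ∃ e : k, e ≠ 0 ∧ ∀ c : k, x ≠ algebraMap k L c ∧ Cl R (x - algebraMap k L c) e

/-- the axioms for the classes -/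
structure Ax (k L R : Type) [Field k] [Field L] [Field R] [Algebra k L] [Algebra L R]
    [Algebra k R] : Prop where
  sq : ∀ (z : R) (c : k), z ^ 2 = algebraMap k R c → ∃ d : k, c = d ^ 2
  steinberg : ∀ (x y : L) (a b e : k), x ≠ 0 → y ≠ 0 → x + y ≠ 0 → a ≠ 0 → b ≠ 0 → e ≠ 0 →
    Cl R x a → Cl R y b → Cl R (x + y) e →
    ∃ u v w : k, ¬ (u = 0 ∧ v = 0 ∧ w = 0) ∧ w ^ 2 = a * e * u ^ 2 + b * e * v ^ 2
  interp : ∀ x : L, (∃ θ : k, V R x θ) ∨ I k R x

lemma Cl.mul {x y : L} {a b : k} (h : Cl R x a) (h' : Cl R y b) : Cl R (x * y) (a * b) := by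
  obtain ⟨w, hw⟩ := h
  obtain ⟨z, hz⟩ := h'
  exact ⟨w * z, by rw [map_mul, map_mul, hw, hz]; ring⟩

lemma Cl.base (c : k) : Cl R (algebraMap k L c) c := ⟨1, by
  rw [← IsScalarTower.algebraMap_apply, one_pow, mul_one]⟩

lemma Cl.inv {x : L} {a : k} (h : Cl R x a) (hx : x ≠ 0) : Cl R x⁻¹ a := by
  obtain ⟨w, hw⟩ := h
  have hx' : algebraMap L R x ≠ 0 := (map_ne_zero _).2 hx
  refine ⟨w / algebraMap L R x, ?_⟩
  rw [map_inv₀, div_pow, ← mul_div_assoc, ← hw]
  field_simp

lemma Cl.of_sq {x : L} {a : k} (d : k) (hd : d ≠ 0) (h : Cl R x (a * d ^ 2)) : Cl R x a := by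
  obtain ⟨w, hw⟩ := h
  exact ⟨algebraMap k R d * w, by rw [hw, map_mul, map_pow]; ring⟩

lemma Cl.unique (A : Ax k L R) {x : L} {a b : k} (hx : x ≠ 0) (ha : a ≠ 0) (h : Cl R x a)
    (h' : Cl R x b) : ∃ d : k, a * b = d ^ 2 := by
  obtain ⟨w, hw⟩ := h
  obtain ⟨z, hz⟩ := h'
  have hx' : algebraMap L R x ≠ 0 := (map_ne_zero _).2 hx
  have ha' : algebraMap k R a ≠ 0 := (map_ne_zero _).2 ha
  have hw0 : w ≠ 0 := by
    rintro rfl
    rw [zero_pow two_ne_zero, mul_zero] at hw
    exact hx' hw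
  have hz0 : z ≠ 0 := by
    rintro rfl
    rw [zero_pow two_ne_zero, mul_zero] at hz
    exact hx' hz
  refine A.sq (algebraMap k R a * w / z) (a * b) ?_
  have h1 : algebraMap k R b = algebraMap k R a * w ^ 2 / z ^ 2 := by
    rw [← hw, hz]
    field_simp
  rw [map_mul, h1]
  field_simp

section arith

lemma exp_ne_sq (z : WithZero (Multiplicative ℤ)) : z ^ 2 ≠ WithZero.exp (-1 : ℤ) := by
  intro h1
  have hy0 : z ≠ 0 := by
    rintro rfl
    rw [zero_pow two_ne_zero] at h1
    exact WithZero.exp_ne_zero h1.symm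
  have h2 := congrArg WithZero.log h1
  rw [WithZero.log_pow, WithZero.log_exp] at h2
  simp only [nsmul_eq_mul] at h2
  have : (2 : ℤ) ∣ -1 := ⟨WithZero.log z, by rw [← h2]; norm_num⟩
  omega

lemma exp_lt_one : WithZero.exp (-1 : ℤ) < (1 : WithZero (Multiplicative ℤ)) := by
  rw [← WithZero.exp_zero]
  exact WithZero.exp_lt_exp.2 (by norm_num)

variable {v : Valuation k (WithZero (Multiplicative ℤ))}

lemma not_sq {z : k} (h : v z = WithZero.exp (-1 : ℤ)) (d : k) : z ≠ d ^ 2 := by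
  rintro rfl
  rw [map_pow] at h
  exact exp_ne_sq _ h

lemma val_unit_sub {e m : k} (he : v e = 1) (hm : v m < 1) :
    v (e - m) = 1 := by
  rw [Valuation.map_sub_eq_of_lt_left _ (by rwa [he]), he]

lemma ne_zero_of_val {z : k} (h : v z ≠ 0) : z ≠ 0 := by
  rintro rfl
  exact h (map_zero _)

end arith

variable (hlam : Lam k) (A : Ax k L R)

include hlam A

lemma V_unique {x : L} {θ θ' : k} (h : V R x θ) (h' : V R x θ') : θ = θ' := by
  by_contra hne
  have h0 : θ' - θ ≠ 0 := sub_ne_zero.2 (Ne.symm hne)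
  obtain ⟨v, l, m, hS, -, -, hm, -⟩ := hlam {θ' - θ} (by simpa using h0)
  have h1 : v (θ' - θ) = 1 := hS _ (by simp)
  have hm1 : v m < 1 := by rw [hm]; exact exp_lt_one
  have hm0 : m ≠ 0 := ne_zero_of_val (v := v) (by rw [hm]; exact WithZero.exp_ne_zero)
  have h2 : v (θ' - θ - m) = 1 := val_unit_sub h1 hm1
  obtain ⟨hx, c1⟩ := h (θ + m) (fun h => hm0 (by linear_combination h))
  obtain ⟨-, c2⟩ := h' (θ + m) (fun h => by
    have : θ' - θ - m = 0 := by linear_combination -h
    rw [this, map_zero] at h2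
    exact zero_ne_one h2)
  obtain ⟨d, hd⟩ := Cl.unique A (sub_ne_zero.2 hx) (by
    intro h
    exact hm0 (by linear_combination -h)) c1 c2
  refine not_sq (v := v) ?_ d hd
  have e : (θ - (θ + m)) * (θ' - (θ + m)) = -(m * (θ' - θ - m)) := by ring
  rw [e, Valuation.map_neg, map_mul, hm, h2, mul_one]

lemma V_not_I {x : L} {θ : k} (h : V R x θ) (h' : I k R x) : False := by
  obtain ⟨e, he, h'⟩ := h'
  obtain ⟨v, l, m, hS, -, -, hm, -⟩ := hlam {e} (by simpa using he)
  have h1 : v e = 1 := hS _ (by simp)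
  have hm0 : m ≠ 0 := ne_zero_of_val (v := v) (by rw [hm]; exact WithZero.exp_ne_zero)
  obtain ⟨hx, c1⟩ := h (θ + m) (fun h => hm0 (by linear_combination h))
  obtain ⟨d, hd⟩ := Cl.unique A (sub_ne_zero.2 hx) (by
    intro h
    exact hm0 (by linear_combination -h)) c1 (h' (θ + m)).2
  refine not_sq (v := v) ?_ d hd
  have e' : (θ - (θ + m)) * e = -(m * e) := by ring
  rw [e', Valuation.map_neg, map_mul, hm, h1, mul_one]

omit hlam A in
lemma V_base (c : k) : V R (algebraMap k L c) c := by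
  intro c' hc
  refine ⟨fun h => hc ((algebraMap k L).injective h).symm, ?_⟩
  rw [← map_sub]
  exact Cl.base _

omit hlam A in
lemma V_aff {x : L} {θ : k} (h : V R x θ) (α β : k) (hα : α ≠ 0) :
    V R (algebraMap k L α * x + algebraMap k L β) (α * θ + β) := by
  intro c hc
  have hα' : algebraMap k L α ≠ 0 := (map_ne_zero _).2 hα
  have e : algebraMap k L α * x + algebraMap k L β - algebraMap k L c =
      algebraMap k L α * (x - algebraMap k L ((c - β) / α)) := by
    rw [map_div₀, map_sub]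
    field_simp
    ring
  obtain ⟨h1, h2⟩ := h ((c - β) / α) (fun h => hc (by rw [← h]; field_simp; ring))
  refine ⟨fun h3 => ?_, ?_⟩
  · rw [← sub_eq_zero, e] at h3
    rcases mul_eq_zero.1 h3 with h4 | h4
    · exact hα' h4
    · exact h1 (sub_eq_zero.1 h4)
  · rw [e]
    have h3 := (Cl.base (L := L) (R := R) α).mul h2
    have e2 : α * (θ - (c - β) / α) = α * θ + β - c := by
      field_simp
      ring
    rwa [e2] at h3

lemma V_add0 {x y : L} (hx : V R x (0 : k)) (hy : V R y (0 : k)) : V R (x + y) (0 : k) := by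
  rcases A.interp (x + y) with ⟨e, he⟩ | ⟨f, hf, hI⟩
  · by_cases he0 : e = 0
    · rwa [he0] at he
    exfalso
    obtain ⟨v, l, m, hS, hl, hl1, hm, hΛ⟩ := hlam {e} (by simpa using he0)
    have hve : v e = 1 := hS _ (by simp)
    have hm1 : v m < 1 := by rw [hm]; exact exp_lt_one
    have hm0 : m ≠ 0 := ne_zero_of_val (v := v) (by rw [hm]; exact WithZero.exp_ne_zero)
    have hl0 : l ≠ 0 := ne_zero_of_val (v := v) (by rw [hl]; exact one_ne_zero)
    have hl10 : 1 - l ≠ 0 := ne_zero_of_val (v := v) (by rw [hl1]; exact one_ne_zero)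
    set d : k := (e - m) / (1 - l) with hd
    have hvd : v d = 1 := by
      rw [hd, map_div₀, val_unit_sub hve hm1, hl1, div_one]
    have hd0 : d ≠ 0 := ne_zero_of_val (v := v) (by rw [hvd]; exact one_ne_zero)
    have hsum : -l * d + d = e - m := by
      rw [hd]
      field_simp
      ring
    have hc0 : -l * d ≠ 0 := mul_ne_zero (neg_ne_zero.2 hl0) hd0
    obtain ⟨x1, x2⟩ := hx (-l * d) hc0
    obtain ⟨y1, y2⟩ := hy d hd0
    obtain ⟨z1, z2⟩ := he (e - m) (fun h => hm0 (by linear_combination -h))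
    have hz : (x - algebraMap k L (-l * d)) + (y - algebraMap k L d) =
        x + y - algebraMap k L (e - m) := by
      rw [← hsum, map_add]
      ring
    obtain ⟨u, w, z, hne, hc⟩ := A.steinberg (x - algebraMap k L (-l * d)) (y - algebraMap k L d)
      (0 - -l * d) (0 - d) (e - (e - m)) (sub_ne_zero.2 x1) (sub_ne_zero.2 y1)
      (by rw [hz]; exact sub_ne_zero.2 z1) (by rw [zero_sub]; exact neg_ne_zero.2 hc0)
      (by rw [zero_sub]; exact neg_ne_zero.2 hd0)
      (fun h => hm0 (by linear_combination h)) x2 y2 (by rw [hz]; exact z2)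
    have h1 : z ^ 2 = -(m * d * (w ^ 2 - l * u ^ 2)) := by
      rw [hc]
      ring
    have h2 := congrArg (v) h1
    rw [Valuation.map_neg, map_mul, map_mul, hm, hvd, hΛ, map_pow, mul_one] at h2
    by_cases hM : max (v w) (v u) = 0
    · have hw0 : w = 0 := by
        have : v w = 0 := le_antisymm ((le_max_left _ _).trans hM.le) zero_le
        exact (map_eq_zero _).1 this
      have hu0 : u = 0 := by
        have : v u = 0 := le_antisymm ((le_max_right _ _).trans hM.le) zero_le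
        exact (map_eq_zero _).1 this
      have hz0 : z = 0 := by
        rw [hw0, hu0] at h1
        have : z ^ 2 = 0 := by rw [h1]; ring
        exact pow_eq_zero_iff two_ne_zero |>.1 this
      exact hne ⟨hu0, hw0, hz0⟩
    · refine exp_ne_sq (v z / max (v w) (v u)) ?_
      rw [div_pow, h2]
      exact mul_div_cancel_right₀ _ (pow_ne_zero 2 hM)
  · exfalso
    obtain ⟨v, l, m, hS, hl, hl1, hm, hΛ⟩ := hlam {f} (by simpa using hf)
    have hm0 : m ≠ 0 := ne_zero_of_val (v := v) (by rw [hm]; exact WithZero.exp_ne_zero)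
    have hl0 : l ≠ 0 := ne_zero_of_val (v := v) (by rw [hl]; exact one_ne_zero)
    have hc0 : -l / f ≠ 0 := div_ne_zero (neg_ne_zero.2 hl0) hf
    have hd0 : -m / f ≠ 0 := div_ne_zero (neg_ne_zero.2 hm0) hf
    obtain ⟨x1, x2⟩ := hx (-l / f) hc0
    obtain ⟨y1, y2⟩ := hy (-m / f) hd0
    obtain ⟨z1, z2⟩ := hI (-l / f + -m / f)
    have hz : (x - algebraMap k L (-l / f)) + (y - algebraMap k L (-m / f)) =
        x + y - algebraMap k L (-l / f + -m / f) := by
      rw [map_add]
      ring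
    obtain ⟨u, w, z, hne, hc⟩ := A.steinberg (x - algebraMap k L (-l / f))
      (y - algebraMap k L (-m / f))
      (0 - -l / f) (0 - -m / f) f (sub_ne_zero.2 x1) (sub_ne_zero.2 y1)
      (by rw [hz]; exact sub_ne_zero.2 z1) (by rw [zero_sub]; exact neg_ne_zero.2 hc0)
      (by rw [zero_sub]; exact neg_ne_zero.2 hd0) hf x2 y2 (by rw [hz]; exact z2)
    have h1 : z ^ 2 - l * u ^ 2 = m * w ^ 2 := by
      rw [hc]
      field_simp
      ring
    have h2 := congrArg (v) h1
    rw [map_mul, hm, hΛ, map_pow] at h2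
    by_cases hw0 : w = 0
    · rw [hw0, map_zero, zero_pow two_ne_zero, mul_zero] at h2
      have hM : max (v z) (v u) = 0 := pow_eq_zero_iff two_ne_zero |>.1 h2
      have hz0 : z = 0 := by
        have : v z = 0 := le_antisymm ((le_max_left _ _).trans hM.le) zero_le
        exact (map_eq_zero _).1 this
      have hu0 : u = 0 := by
        have : v u = 0 := le_antisymm ((le_max_right _ _).trans hM.le) zero_le
        exact (map_eq_zero _).1 this
      exact hne ⟨hu0, hw0, hz0⟩
    · have hvw : v w ≠ 0 := (Valuation.ne_zero_iff _).2 hw0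
      refine exp_ne_sq (max (v z) (v u) / v w) ?_
      rw [div_pow, h2]
      exact mul_div_cancel_right₀ _ (pow_ne_zero 2 hvw)

lemma V_add {x y : L} {θ θ' : k} (hx : V R x θ) (hy : V R y θ') : V R (x + y) (θ + θ') := by
  have h1 := V_aff hx 1 (-θ) one_ne_zero
  have h2 := V_aff hy 1 (-θ') one_ne_zero
  have e1 : 1 * θ + -θ = 0 := by ring
  have e2 : 1 * θ' + -θ' = 0 := by ring
  rw [e1] at h1
  rw [e2] at h2
  have h3 := V_aff (V_add0 hlam A h1 h2) 1 (θ + θ') one_ne_zero
  have e3 : 1 * (0 : k) + (θ + θ') = θ + θ' := by ring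
  have e4 : algebraMap k L 1 * (algebraMap k L 1 * x + algebraMap k L (-θ) +
      (algebraMap k L 1 * y + algebraMap k L (-θ'))) + algebraMap k L (θ + θ') = x + y := by
    simp only [map_one, map_neg, map_add]
    ring
  rwa [e3, e4] at h3

lemma V_sq0 {x : L} {θ : k} (hθ : θ ≠ 0) (hx : V R x θ) : V R (x ^ 2) (θ ^ 2) := by
  classical
  have h2θ : 2 * θ ≠ 0 := mul_ne_zero two_ne_zero hθ
  -- the class of `x² - c²`
  have key : ∀ (v : Valuation k (WithZero (Multiplicative ℤ))) (m : k), v (2 * θ) = 1 →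
      v m = WithZero.exp (-1 : ℤ) →
      x ^ 2 ≠ algebraMap k L ((θ + m) ^ 2) ∧
      Cl R (x ^ 2 - algebraMap k L ((θ + m) ^ 2)) (-(m * (2 * θ - -m))) ∧
      v (m * (2 * θ - -m)) = WithZero.exp (-1 : ℤ) := by
    intro v m h1 hm
    have hm1 : v (-m) < 1 := by rw [Valuation.map_neg, hm]; exact exp_lt_one
    have hm0 : m ≠ 0 := ne_zero_of_val (v := v) (by rw [hm]; exact WithZero.exp_ne_zero)
    have h2 : v (2 * θ - -m) = 1 := val_unit_sub h1 hm1
    have h20 : 2 * θ - -m ≠ 0 := ne_zero_of_val (v := v) (by rw [h2]; exact one_ne_zero)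
    obtain ⟨x1, x2⟩ := hx (θ + m) (fun h => hm0 (by linear_combination h))
    obtain ⟨y1, y2⟩ := hx (-(θ + m)) (fun h => h20 (by linear_combination -h))
    have e : x ^ 2 - algebraMap k L ((θ + m) ^ 2) =
        (x - algebraMap k L (θ + m)) * (x - algebraMap k L (-(θ + m))) := by
      rw [map_pow, map_neg]
      ring
    refine ⟨fun h => ?_, ?_, ?_⟩
    · rw [← sub_eq_zero, e] at h
      rcases mul_eq_zero.1 h with h3 | h3
      · exact x1 (sub_eq_zero.1 h3)
      · exact y1 (sub_eq_zero.1 h3)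
    · rw [e]
      have h3 := x2.mul y2
      have e2 : (θ - (θ + m)) * (θ - -(θ + m)) = -(m * (2 * θ - -m)) := by ring
      rwa [e2] at h3
    · rw [map_mul, hm, h2, mul_one]
  rcases A.interp (x ^ 2) with ⟨e, he⟩ | ⟨f, hf, hI⟩
  · by_cases he0 : e = θ ^ 2
    · rwa [he0] at he
    exfalso
    have he1 : e - θ ^ 2 ≠ 0 := sub_ne_zero.2 he0
    obtain ⟨v, l, m, hS, -, -, hm, -⟩ := hlam {2 * θ, e - θ ^ 2} (by
      intro z hz
      rw [Finset.mem_insert, Finset.mem_singleton] at hz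
      rcases hz with rfl | rfl
      · exact h2θ
      · exact he1)
    have hv1 : v (2 * θ) = 1 := hS _ (by simp)
    have hv2 : v (e - θ ^ 2) = 1 := hS _ (by simp)
    obtain ⟨k1, k2, k3⟩ := key v m hv1 hm
    have hv3 : v (e - (θ + m) ^ 2) = 1 := by
      have e1 : e - (θ + m) ^ 2 = (e - θ ^ 2) - m * (2 * θ - -m) := by ring
      rw [e1]
      exact val_unit_sub hv2 (by rw [k3]; exact exp_lt_one)
    obtain ⟨z1, z2⟩ := he ((θ + m) ^ 2) (fun h => by
      rw [← h, sub_self, map_zero] at hv3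
      exact zero_ne_one hv3)
    obtain ⟨d, hd⟩ := Cl.unique A (sub_ne_zero.2 z1) (ne_zero_of_val (v := v) (by
      rw [Valuation.map_neg, k3]
      exact WithZero.exp_ne_zero)) k2 z2
    refine not_sq (v := v) ?_ d hd
    rw [map_mul, Valuation.map_neg, k3, hv3, mul_one]
  · exfalso
    obtain ⟨v, l, m, hS, -, -, hm, -⟩ := hlam {2 * θ, f} (by
      intro z hz
      rw [Finset.mem_insert, Finset.mem_singleton] at hz
      rcases hz with rfl | rfl
      · exact h2θ
      · exact hf)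
    have hv1 : v (2 * θ) = 1 := hS _ (by simp)
    have hv2 : v f = 1 := hS _ (by simp)
    obtain ⟨k1, k2, k3⟩ := key v m hv1 hm
    obtain ⟨z1, z2⟩ := hI ((θ + m) ^ 2)
    obtain ⟨d, hd⟩ := Cl.unique A (sub_ne_zero.2 z1) (ne_zero_of_val (v := v) (by
      rw [Valuation.map_neg, k3]
      exact WithZero.exp_ne_zero)) k2 z2
    refine not_sq (v := v) ?_ d hd
    rw [map_mul, Valuation.map_neg, k3, hv2, mul_one]

lemma V_sq {x : L} {θ : k} (hx : V R x θ) : V R (x ^ 2) (θ ^ 2) := by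
  obtain ⟨n, hn, hn'⟩ : ∃ n : k, n ≠ 0 ∧ θ + n ≠ 0 := by
    by_cases h : θ + 1 = 0
    · refine ⟨2, two_ne_zero, fun h2 => ?_⟩
      have : (1 : k) = 0 := by linear_combination h2 - h
      exact one_ne_zero this
    · exact ⟨1, one_ne_zero, h⟩
  have h1 := V_aff hx 1 n one_ne_zero
  have e1 : 1 * θ + n = θ + n := by ring
  rw [e1] at h1
  have h2 := V_sq0 hlam A hn' h1
  have h3 := V_aff hx (-(2 * n)) (-(n ^ 2)) (neg_ne_zero.2 (mul_ne_zero two_ne_zero hn))
  have h4 := V_add hlam A h2 h3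
  have e2 : (θ + n) ^ 2 + (-(2 * n) * θ + -(n ^ 2)) = θ ^ 2 := by ring
  have e3 : (algebraMap k L 1 * x + algebraMap k L n) ^ 2 +
      (algebraMap k L (-(2 * n)) * x + algebraMap k L (-(n ^ 2))) = x ^ 2 := by
    simp only [map_one, map_neg, map_mul, map_pow, map_ofNat]
    ring
  rwa [e2, e3] at h4

lemma V_mul {x y : L} {θ θ' : k} (hx : V R x θ) (hy : V R y θ') : V R (x * y) (θ * θ') := by
  have hcL : CharZero L := charZero_of_injective_algebraMap (algebraMap k L).injective
  have h4 : (4 : k) ≠ 0 := by norm_num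
  have h4L : (4 : L) ≠ 0 := by norm_num
  have hy' := V_aff hy (-1) 0 (neg_ne_zero.2 one_ne_zero)
  have h1 := V_aff (V_sq hlam A (V_add hlam A hx hy)) (1 / 4) 0 (div_ne_zero one_ne_zero h4)
  have h2 := V_aff (V_sq hlam A (V_add hlam A hx hy')) (-(1 / 4)) 0
    (neg_ne_zero.2 (div_ne_zero one_ne_zero h4))
  have h3 := V_add hlam A h1 h2
  have e1 : 1 / 4 * (θ + θ') ^ 2 + 0 + (-(1 / 4) * (θ + (-1 * θ' + 0)) ^ 2 + 0) = θ * θ' := by
    field_simp
    ring
  have e2 : algebraMap k L (1 / 4) * (x + y) ^ 2 + algebraMap k L 0 + (algebraMap k L (-(1 / 4)) *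
      (x + (algebraMap k L (-1) * y + algebraMap k L 0)) ^ 2 + algebraMap k L 0) = x * y := by
    simp only [map_one, map_neg, map_div₀, map_ofNat, map_zero]
    field_simp
    ring
  rwa [e1, e2] at h3

omit hlam A in
lemma V_inv_of_I {x : L} (h : I k R x) : V R x⁻¹ (0 : k) := by
  obtain ⟨e, he, hI⟩ := h
  have hx0 : x ≠ 0 := by
    have := (hI 0).1
    rwa [map_zero] at this
  have c0 : Cl R x e := by
    have := (hI 0).2
    rwa [map_zero, sub_zero] at this
  intro c hc
  have hc' : algebraMap k L c ≠ 0 := (map_ne_zero _).2 hc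
  obtain ⟨h1, h2⟩ := hI c⁻¹
  rw [map_inv₀] at h1 h2
  have e1 : x⁻¹ - algebraMap k L c = algebraMap k L (-c) * ((x - (algebraMap k L c)⁻¹) * x⁻¹) := by
    rw [map_neg]
    field_simp
    ring
  refine ⟨fun h3 => h1 (by rw [← h3, inv_inv]), ?_⟩
  rw [e1]
  have h3 := (Cl.base (L := L) (R := R) (-c)).mul (h2.mul (c0.inv hx0))
  refine Cl.of_sq e he ?_
  have e2 : (0 - c) * e ^ 2 = -c * (e * e) := by ring
  rwa [e2]

/-- **The valuation ring.** -/
theorem exists_ring : ∃ O : ValuationSubring L, (∀ x : L, x ∈ O ↔ ∃ θ : k, V R x θ) ∧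
    (∀ c : k, algebraMap k L c ∈ O) ∧
    (∀ a ∈ O, ∃ c : k, O.valuation (a - algebraMap k L c) < 1) := by
  let O : ValuationSubring L :=
    { carrier := {x | ∃ θ : k, V R x θ}
      mul_mem' := fun {x y} hx hy => by
        obtain ⟨θ, h⟩ := hx
        obtain ⟨θ', h'⟩ := hy
        exact ⟨_, V_mul hlam A h h'⟩
      one_mem' := ⟨1, by
        have := V_base (L := L) (R := R) (1 : k)
        rwa [map_one] at this⟩
      add_mem' := fun {x y} hx hy => by
        obtain ⟨θ, h⟩ := hx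
        obtain ⟨θ', h'⟩ := hy
        exact ⟨_, V_add hlam A h h'⟩
      zero_mem' := ⟨0, by
        have := V_base (L := L) (R := R) (0 : k)
        rwa [map_zero] at this⟩
      neg_mem' := fun {x} hx => by
        obtain ⟨θ, h⟩ := hx
        have h1 := V_aff h (-1) 0 (neg_ne_zero.2 one_ne_zero)
        have e : algebraMap k L (-1) * x + algebraMap k L 0 = -x := by
          simp
        rw [e] at h1
        exact ⟨-1 * θ + 0, h1⟩
      mem_or_inv_mem' := fun x => by
        rcases A.interp x with h | h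
        · exact Or.inl h
        · exact Or.inr ⟨0, V_inv_of_I h⟩ }
  have hO : ∀ x : L, x ∈ O ↔ ∃ θ : k, V R x θ := fun x => Iff.rfl
  refine ⟨O, hO, fun c => (hO _).2 ⟨c, V_base c⟩, fun a ha => ?_⟩
  obtain ⟨θ, hθ⟩ := (hO a).1 ha
  refine ⟨θ, ?_⟩
  have h0 : V R (a - algebraMap k L θ) (0 : k) := by
    have h1 := V_aff hθ 1 (-θ) one_ne_zero
    have e1 : 1 * θ + -θ = 0 := by ring
    have e2 : algebraMap k L 1 * a + algebraMap k L (-θ) = a - algebraMap k L θ := by
      simp only [map_one, map_neg]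
      ring
    rwa [e1, e2] at h1
  by_cases hz : a - algebraMap k L θ = 0
  · rw [hz, map_zero]
    exact zero_lt_one
  have hmem : a - algebraMap k L θ ∈ O := (hO _).2 ⟨0, h0⟩
  have hnot : (a - algebraMap k L θ)⁻¹ ∉ O := by
    intro h1
    obtain ⟨θ', h2⟩ := (hO _).1 h1
    have h3 := V_mul hlam A h0 h2
    rw [mul_inv_cancel₀ hz, zero_mul] at h3
    have h4 := V_base (L := L) (R := R) (1 : k)
    rw [map_one] at h4
    exact zero_ne_one (V_unique hlam A h3 h4)
  by_contra hcon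
  rw [not_lt] at hcon
  apply hnot
  rw [← ValuationSubring.valuation_le_one_iff, map_inv₀]
  exact inv_le_one_of_one_le₀ hcon

end Pool.Agent.Helper88.MU
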