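import Mathlib

/-!
# Two properties of a field (project MU)
-/

set_option autoImplicit false

namespace Pool.Agent.Helper88.MU

/-- no two algebraic elements have the same classes -/
def Two (k : Type) [Field k] : Prop :=
  ∀ (Ω : Type) [Field Ω] [Algebra k Ω] (θ1 θ2 : Ω),
    IsAlgebraic k θ1 → IsAlgebraic k θ2 → θ1 ≠ θ2 →
    ∃ c : k, algebraMap k Ω c ≠ θ2 ∧ ∀ w ∈ IntermediateField.adjoin k {θ1, θ2},
      θ1 - algebraMap k Ω c ≠ w ^ 2 * (θ2 - algebraMap k Ω c)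

/-- discrete valuations -/
def Lam (k : Type) [Field k] : Prop :=
  ∀ (S : Finset k), (∀ e ∈ S, e ≠ 0) →
    ∃ (v : Valuation k (WithZero (Multiplicative ℤ))) (l m : k), (∀ e ∈ S, v e = 1) ∧
      v l = 1 ∧ v (1 - l) = 1 ∧ v m = WithZero.exp (-1) ∧
      ∀ u z : k, v (u ^ 2 - l * z ^ 2) = (max (v u) (v z)) ^ 2

end Pool.Agent.Helper88.MU
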