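import Pool.Agent.Helper88.MT.Rel
import Pool.Agent.Helper88.MU.Stm

/-!
# The classes of `x - c`
-/

set_option autoImplicit false

open Polynomial

namespace Pool.Agent.Helper88.MU

open Pool.Agent.Helper88.MT (Rel rel_at rel_root rel_sq)

/-- **The classes of `x - c` are those of a rational point.** -/
theorem interp {k : Type} [Field k] [CharZero k] (hT : Two k) (a : k → k) (ha : ∀ c, a c ≠ 0) :
    ∀ (n : ℕ) (f : k[X]), f.natDegree = n → f ≠ 0 → (∀ c, Rel f (a c) c) →
    (∃ e : k, e ≠ 0 ∧ ∀ c, ∃ d : k, e * a c = d ^ 2) ∨
      ∃ θ : k, ∀ c, ∃ d : k, (θ - c) * a c = d ^ 2 := by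
  intro n
  induction n using Nat.strong_induction_on with
  | _ n ih =>
    intro f hn hf H
    by_cases hsq : Squarefree f
    · by_cases hd : f.natDegree = 0
      · left
        obtain ⟨e, rfl⟩ := natDegree_eq_zero.1 hd
        have he : e ≠ 0 := by
          rintro rfl
          exact hf C_0
        refine ⟨e, he, fun c => ?_⟩
        have := rel_at (ha c) (f := C e) (by rwa [eval_C]) (H c)
        rwa [eval_C] at this
      · right
        by_cases hd1 : f.natDegree = 1
        · obtain ⟨b1, b0, hb1, hf1⟩ : ∃ b1 b0 : k, b1 ≠ 0 ∧ f = C b1 * X + C b0 :=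
            ⟨f.coeff 1, f.coeff 0, by
              have := leadingCoeff_ne_zero.2 hf
              rwa [leadingCoeff, hd1] at this, eq_X_add_C_of_natDegree_le_one hd1.le⟩
          refine ⟨-b0 / b1, fun c => ?_⟩
          obtain ⟨y, -, hy⟩ := rel_root (Ω := k) (ha c) hsq (θ := -b0 / b1) (isIntegral_algebraMap (R := k) (A := k) (x := -b0/b1))
            (by
              rw [hf1]
              simp only [map_add, map_mul, aeval_C, aeval_X, Algebra.algebraMap_self, RingHom.id_apply]
              field_simp
              ring) (H c)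
          exact ⟨y, hy.symm⟩
        · exfalso
          have hsep : f.Separable := (PerfectField.separable_iff_squarefree).2 hsq
          have hcard := card_rootSet_eq_natDegree (K := AlgebraicClosure k) hsep
            (IsAlgClosed.splits _)
          have h2 : 1 < Fintype.card (f.rootSet (AlgebraicClosure k)) := by
            rw [hcard]
            omega
          obtain ⟨⟨θ1, h1⟩, ⟨θ2, h2⟩, hne⟩ := Fintype.one_lt_card_iff.1 h2
          have hne' : θ1 ≠ θ2 := fun h => hne (Subtype.ext h)
          have i1 : IsAlgebraic k θ1 := Algebra.IsAlgebraic.isAlgebraic θ1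
          have i2 : IsAlgebraic k θ2 := Algebra.IsAlgebraic.isAlgebraic θ2
          obtain ⟨c, hc, hw⟩ := hT (AlgebraicClosure k) θ1 θ2 i1 i2 hne'
          obtain ⟨y1, hy1, hy1'⟩ := rel_root (ha c) hsq i1.isIntegral ((mem_rootSet.1 h1).2) (H c)
          obtain ⟨y2, hy2, hy2'⟩ := rel_root (ha c) hsq i2.isIntegral ((mem_rootSet.1 h2).2) (H c)
          have hy20 : y2 ≠ 0 := by
            rintro rfl
            rw [zero_pow two_ne_zero] at hy2'
            rcases mul_eq_zero.1 hy2'.symm with h3 | h3
            · exact hc (sub_eq_zero.1 h3).symm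
            · exact ha c ((map_eq_zero _).1 h3)
          refine hw (y1 / y2) (div_mem ?_ ?_) ?_
          · exact IntermediateField.adjoin.mono k _ _ (by simp) hy1
          · exact IntermediateField.adjoin.mono k _ _ (by simp) hy2
          · have hac : algebraMap k (AlgebraicClosure k) (a c) ≠ 0 := (_root_.map_ne_zero _).2 (ha c)
            rw [div_pow, hy1', hy2']
            have h3 : θ2 - algebraMap k (AlgebraicClosure k) c ≠ 0 := fun h3 =>
              hc (sub_eq_zero.1 h3).symm
            field_simp
    · have h1 : ∃ g : k[X], g * g ∣ f ∧ ¬ IsUnit g := by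
        unfold Squarefree at hsq
        push Not at hsq
        exact hsq
      obtain ⟨g, ⟨h, hgh⟩, hgu⟩ := h1
      have hg0 : g ≠ 0 := by
        rintro rfl
        apply hf
        rw [hgh]
        ring
      have hh0 : h ≠ 0 := by
        rintro rfl
        apply hf
        rw [hgh]
        ring
      have hgd : 0 < g.natDegree := by
        by_contra hcon
        obtain ⟨e, he⟩ := natDegree_eq_zero.1 (by omega : g.natDegree = 0)
        apply hgu
        rw [← he]
        exact isUnit_C.2 (isUnit_iff_ne_zero.2 (by
          rintro rfl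
          apply hg0
          rw [← he, C_0]))
      refine ih h.natDegree ?_ h rfl hh0 fun c => rel_sq hg0 (hgh ▸ H c)
      rw [← hn, hgh, natDegree_mul (mul_ne_zero hg0 hg0) hh0, natDegree_mul hg0 hg0]
      omega

end Pool.Agent.Helper88.MU
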