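import Pool.Agent.Helper88.MT.Core
import Pool.Agent.Helper88.MU.Rel
import Pool.Agent.Helper88.MU.Place

/-!
# From the lift modulo two to the classes
-/

set_option autoImplicit false
set_option linter.unusedSectionVars false

open Polynomial IntermediateField

namespace Pool.Agent.Helper88.MU

open Pool.Agent.Helper88.MT (Rel core class_two mem_base)

/-- from `K = k(t)` to polynomials -/
lemma polys {k K : Type} [Field k] [Field K] [Algebra k K] {t : K} (ht : Transcendental k t)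
    (hK : ∀ z : K, ∃ P Q : k[X], Q ≠ 0 ∧ z * aeval t Q = aeval t P) {f1 g1 f2 : k[X]} (hg1 : g1 ≠ 0)
    {F1 F2 : K} (hF1 : F1 * aeval t g1 = aeval t f1) (hF2 : F2 = aeval t f2)
    (h : (∃ d : K, d ^ 2 = F1) ∨ ∃ u w : K, w ^ 2 = F1 * u ^ 2 + F2) :
    ∃ u v w : k[X], ¬ (u = 0 ∧ v = 0 ∧ w = 0) ∧ w ^ 2 = f1 * g1 * u ^ 2 + f2 * v ^ 2 := by
  have hinj : Function.Injective (aeval t : k[X] →ₐ[k] K) := transcendental_iff_injective.1 ht
  have hne : ∀ Q : k[X], Q ≠ 0 → aeval t Q ≠ 0 := fun Q hQ h => ht ⟨Q, hQ, h⟩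
  rcases h with ⟨d, hd⟩ | ⟨u, w, huw⟩
  · obtain ⟨P, Q, hQ, hPQ⟩ := hK d
    refine ⟨Q, 0, P * g1, fun h => hQ h.1, hinj ?_⟩
    simp only [map_pow, map_mul, map_add, map_zero]
    rw [← hPQ, ← hF1, ← hd]
    ring
  · obtain ⟨P, Q, hQ, hPQ⟩ := hK u
    obtain ⟨r, s, hs, hrs⟩ := hK w
    refine ⟨P * s, s * Q * g1, r * Q * g1, fun h => ?_, hinj ?_⟩
    · exact mul_ne_zero (mul_ne_zero hs hQ) hg1 h.2.1
    · simp only [map_pow, map_mul, map_add]
      rw [← hPQ, ← hrs, ← hF1, ← hF2]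
      have e : (w * (aeval t) s * (aeval t) Q * (aeval t) g1) ^ 2 =
          w ^ 2 * ((aeval t) s * (aeval t) Q * (aeval t) g1) ^ 2 := by ring
      rw [e, huw]
      ring

/-- the fixed field of a section -/
def fixR {L Ω G : Type} [Field L] [Field Ω] [Algebra L Ω] [Group G] (EM : IntermediateField L Ω)
    (σ : G →* (EM ≃ₐ[L] EM)) : IntermediateField L Ω where
  carrier := {x | ∃ hx : x ∈ EM, ∀ g, σ g ⟨x, hx⟩ = ⟨x, hx⟩}
  mul_mem' := fun {x y} hx hy => by
    obtain ⟨h1, h2⟩ := hx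
    obtain ⟨h3, h4⟩ := hy
    refine ⟨mul_mem h1 h3, fun g => ?_⟩
    have e : (⟨x * y, mul_mem h1 h3⟩ : EM) = ⟨x, h1⟩ * ⟨y, h3⟩ := rfl
    rw [e, map_mul, h2, h4]
  add_mem' := fun {x y} hx hy => by
    obtain ⟨h1, h2⟩ := hx
    obtain ⟨h3, h4⟩ := hy
    refine ⟨add_mem h1 h3, fun g => ?_⟩
    have e : (⟨x + y, add_mem h1 h3⟩ : EM) = ⟨x, h1⟩ + ⟨y, h3⟩ := rfl
    rw [e, map_add, h2, h4]
  algebraMap_mem' := fun c => ⟨EM.algebraMap_mem c, fun g => (σ g).commutes c⟩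
  inv_mem' := fun x hx => by
    obtain ⟨h1, h2⟩ := hx
    refine ⟨inv_mem h1, fun g => ?_⟩
    have e : (⟨x⁻¹, inv_mem h1⟩ : EM) = (⟨x, h1⟩ : EM)⁻¹ := rfl
    rw [e, map_inv₀, h2]

lemma mem_fixR {L Ω G : Type} [Field L] [Field Ω] [Algebra L Ω] [Group G]
    (EM : IntermediateField L Ω) (σ : G →* (EM ≃ₐ[L] EM)) (x : Ω) :
    x ∈ fixR EM σ ↔ ∃ hx : x ∈ EM, ∀ g, σ g ⟨x, hx⟩ = ⟨x, hx⟩ := Iff.rfl

section

variable {k L T K Ω : Type} [Field k] [CharZero k] [Field L] [Field T] [Field K] [Field Ω]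
  [Algebra k L] [Algebra L Ω] [Algebra k Ω] [IsScalarTower k L Ω] [IsAlgClosed Ω]
  [Algebra L T] [Algebra T Ω] [IsScalarTower L T Ω] [Algebra k K] [Algebra K T] [Algebra K Ω]
  [IsScalarTower K T Ω] [IsScalarTower k K Ω]

/-- **The axioms hold.** -/
theorem ax (hT : Two k)
    (EM : IntermediateField L Ω) [Algebra.IsAlgebraic L EM]
    (hEM : ∀ (p : L) (u : Ω), u ^ 2 = algebraMap L Ω p → u ∈ EM)
    (σ : (algebraicClosure k Ω ≃ₐ[k] algebraicClosure k Ω) →* (EM ≃ₐ[L] EM)) (hσ : Continuous σ)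
    (hσsec : ∀ (g : algebraicClosure k Ω ≃ₐ[k] algebraicClosure k Ω) (z : algebraicClosure k Ω)
      (hz : (z : Ω) ∈ EM), ((σ g ⟨z, hz⟩ : EM) : Ω) = ((g z : algebraicClosure k Ω) : Ω))
    (t : K) (ht : Transcendental k t)
    (hK : ∀ z : K, ∃ P Q : k[X], Q ≠ 0 ∧ z * aeval t Q = aeval t P)
    (htL : ∀ x : L, algebraMap L Ω x ≠ algebraMap K Ω t)
    (E2 : IntermediateField T Ω) [Algebra.IsAlgebraic T E2]
    (hE2 : ∀ (p q a : T) (r u : Ω), r ^ 2 = algebraMap T Ω a →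
      u ^ 2 = algebraMap T Ω p + algebraMap T Ω q * r → u ∈ E2)
    (φ : (algebraicClosure K Ω ≃ₐ[K] algebraicClosure K Ω) →* (E2 ≃ₐ[T] E2)) (hφ : Continuous φ)
    (hφsec : ∀ (g : algebraicClosure K Ω ≃ₐ[K] algebraicClosure K Ω) (z : algebraicClosure K Ω)
      (hz : (z : Ω) ∈ E2), ((φ g ⟨z, hz⟩ : E2) : Ω) = ((g z : algebraicClosure K Ω) : Ω))
    (hlift : ∀ x ∈ fixR EM σ, ∃ hx : x ∈ E2, ∀ g, φ g ⟨x, hx⟩ = ⟨x, hx⟩) :
    Ax k L (fixR EM σ) := by
  classical
  have hcK : CharZero K := charZero_of_injective_algebraMap (algebraMap k K).injective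
  have towT : ∀ x : L, algebraMap T Ω (algebraMap L T x) = algebraMap L Ω x :=
    fun x => (IsScalarTower.algebraMap_apply L T Ω x).symm
  have towK : ∀ c : k, algebraMap T Ω (algebraMap K T (algebraMap k K c)) = algebraMap k Ω c := by
    intro c
    rw [← IsScalarTower.algebraMap_apply K T Ω, ← IsScalarTower.algebraMap_apply k K Ω]
  have towk : ∀ c : k, algebraMap L Ω (algebraMap k L c) = algebraMap k Ω c :=
    fun c => (IsScalarTower.algebraMap_apply k L Ω c).symm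
  -- classes over `k`
  have hcls : ∀ x : L, x ≠ 0 → ∃ a : k, a ≠ 0 ∧ Cl (fixR EM σ) x a := by
    intro x hx
    obtain ⟨a, η, ha, hη, hxη⟩ := class_two (K := k) EM σ hσ hσsec hEM x hx
    refine ⟨a, ha, ⟨(η : Ω), η.2, fun g => hη g⟩, ?_⟩
    apply Subtype.ext
    have h1 := congrArg (fun z : EM => (z : Ω)) hxη
    change algebraMap L Ω x = algebraMap k Ω a * (η : Ω) ^ 2
    rw [← towk]
    exact h1
  -- relations over `K`
  have hrel : ∀ (P R Q : T) (A a τ : K) (η ξ ζ : Ω) (hη : η ∈ E2) (hξ : ξ ∈ E2) (hζ : ζ ∈ E2),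
      R ≠ 0 → Q ≠ 0 → R - P = Q → a ≠ 0 → A ≠ 0 → τ ≠ 0 →
      (∀ g, φ g ⟨η, hη⟩ = ⟨η, hη⟩) → (∀ g, φ g ⟨ξ, hξ⟩ = ⟨ξ, hξ⟩) → (∀ g, φ g ⟨ζ, hζ⟩ = ⟨ζ, hζ⟩) →
      algebraMap T Ω P = algebraMap T Ω (algebraMap K T A) * η ^ 2 →
      algebraMap T Ω R = algebraMap T Ω (algebraMap K T a) * ξ ^ 2 →
      algebraMap T Ω Q = algebraMap T Ω (algebraMap K T τ) * ζ ^ 2 →
      (∃ d : K, d ^ 2 = A * a) ∨ ∃ u w : K, w ^ 2 = A * a * u ^ 2 + τ * a := by
    intro P R Q A a τ η ξ ζ hη hξ hζ hR hQ hPR ha hA hτ f1 f2 f3 e1 e2 e3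
    exact core E2 φ hφ hφsec hE2 P R Q hR hQ hPR A a τ ha hA hτ ⟨η, hη⟩ ⟨ξ, hξ⟩ ⟨ζ, hζ⟩ f1 f2 f3
      (Subtype.ext e1) (Subtype.ext e2) (Subtype.ext e3)
  refine ⟨?_, ?_, ?_⟩
  · -- squares
    intro z c hz
    have hzΩ : (z : Ω) ^ 2 = algebraMap k Ω c := congrArg (fun y : fixR EM σ => (y : Ω)) hz
    have halg : (z : Ω) ∈ algebraicClosure k Ω := by
      rw [mem_algebraicClosure_iff, isAlgebraic_iff_isIntegral]
      refine IsIntegral.of_pow two_pos ?_
      rw [hzΩ]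
      exact isIntegral_algebraMap
    obtain ⟨hzE, hfix⟩ := (mem_fixR EM σ z).1 z.2
    obtain ⟨d, hd⟩ := mem_base (K := k) (Ω := Ω) (z := ⟨(z : Ω), halg⟩) (fun g => by
      apply Subtype.ext
      have h1 := hσsec g ⟨(z : Ω), halg⟩ hzE
      rw [← h1]
      exact congrArg (fun y : EM => (y : Ω)) (hfix g))
    refine ⟨d, (algebraMap k Ω).injective ?_⟩
    rw [← hzΩ, map_pow]
    congr 1
    exact (congrArg (fun y : algebraicClosure k Ω => (y : Ω)) hd).symm
  · -- the Steinberg relation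
    intro x y a b e hx hy hxy ha hb he hxa hyb hxye
    obtain ⟨η, hη⟩ := hxa
    obtain ⟨ζ, hζ⟩ := hyb
    obtain ⟨ξ, hξ⟩ := hxye
    have ht0 : ∀ z : L, z ≠ 0 → algebraMap L T z ≠ 0 := fun z hz => (_root_.map_ne_zero _).2 hz
    have hk0 : ∀ c : k, c ≠ 0 → algebraMap k K c ≠ 0 := fun c hc => (_root_.map_ne_zero _).2 hc
    obtain ⟨g1, g1'⟩ := hlift η η.2
    obtain ⟨g2, g2'⟩ := hlift ξ ξ.2
    obtain ⟨g3, g3'⟩ := hlift ζ ζ.2
    have hr := hrel (algebraMap L T x) (algebraMap L T (x + y)) (algebraMap L T y)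
      (algebraMap k K a) (algebraMap k K e) (algebraMap k K b) η ξ ζ g1 g2 g3 (ht0 _ hxy) (ht0 _ hy)
      (by rw [← map_sub, add_sub_cancel_left]) (hk0 _ he) (hk0 _ ha) (hk0 _ hb) g1' g2' g3'
      (by
        rw [towT, towK]
        exact congrArg (fun z : fixR EM σ => (z : Ω)) hη)
      (by
        rw [towT, towK]
        exact congrArg (fun z : fixR EM σ => (z : Ω)) hξ)
      (by
        rw [towT, towK]
        exact congrArg (fun z : fixR EM σ => (z : Ω)) hζ)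
    obtain ⟨u, v, w, hne, hw⟩ := polys ht hK (f1 := C (a * e)) (g1 := 1) (f2 := C (b * e))
      one_ne_zero (F1 := algebraMap k K a * algebraMap k K e)
      (F2 := algebraMap k K b * algebraMap k K e)
      (by rw [map_one, mul_one, aeval_C, map_mul]) (by rw [aeval_C, map_mul]) hr
    -- evaluation
    obtain ⟨c, hc⟩ : ∃ c : k, ¬ (u.eval c = 0 ∧ v.eval c = 0 ∧ w.eval c = 0) := by
      by_contra hcon
      push Not at hcon
      refine hne ⟨?_, ?_, ?_⟩
      · exact Polynomial.funext fun r => by rw [(hcon r).1, eval_zero]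
      · exact Polynomial.funext fun r => by rw [(hcon r).2.1, eval_zero]
      · exact Polynomial.funext fun r => by rw [(hcon r).2.2, eval_zero]
    refine ⟨u.eval c, v.eval c, w.eval c, hc, ?_⟩
    have h1 := congrArg (Polynomial.eval c) hw
    simpa using h1
  · -- interpolation
    intro x
    by_cases hxk : ∃ c : k, x = algebraMap k L c
    · obtain ⟨c, rfl⟩ := hxk
      exact Or.inl ⟨c, V_base c⟩
    push Not at hxk
    have hex : ∀ c : k, ∃ a : k, a ≠ 0 ∧ Cl (fixR EM σ) (x - algebraMap k L c) a :=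
      fun c => hcls _ (sub_ne_zero.2 (hxk c))
    choose a ha hcl using hex
    set P : T := algebraMap L T x - algebraMap K T t with hP
    have hP0 : P ≠ 0 := by
      intro h
      rw [hP, sub_eq_zero] at h
      apply htL x
      rw [← towT, h, ← IsScalarTower.algebraMap_apply K T Ω]
    obtain ⟨A, η, hA, hη, hPη⟩ := class_two (K := K) E2 φ hφ hφsec (fun p u hu =>
      hE2 p 0 0 0 u (by simp) (by rw [hu]; simp)) P hP0
    obtain ⟨f1, g1, hg1, hfg⟩ := hK A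
    have hf1 : f1 ≠ 0 := by
      rintro rfl
      rw [map_zero] at hfg
      rcases mul_eq_zero.1 hfg with h | h
      · exact hA h
      · exact ht ⟨g1, hg1, h⟩
    have htc : ∀ c : k, t - algebraMap k K c ≠ 0 := by
      intro c h
      apply ht
      rw [sub_eq_zero.1 h]
      exact isAlgebraic_algebraMap c
    have hRel : ∀ c : k, Rel (f1 * g1) (a c) c := by
      intro c
      obtain ⟨ξ, hξ⟩ := hcl c
      obtain ⟨g2, g2'⟩ := hlift ξ ξ.2
      have hr := hrel P (algebraMap L T (x - algebraMap k L c))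
        (algebraMap K T (t - algebraMap k K c)) A (algebraMap k K (a c)) (t - algebraMap k K c)
        η ξ 1 η.2 g2 (one_mem _) ((_root_.map_ne_zero _).2 (sub_ne_zero.2 (hxk c)))
        ((_root_.map_ne_zero _).2 (htc c)) (by
          apply (algebraMap T Ω).injective
          rw [hP, map_sub, map_sub, map_sub, map_sub, map_sub, towT, map_sub, towT, towK, towk]
          ring) ((_root_.map_ne_zero _).2 (ha c)) hA (htc c) hη g2' (fun g => map_one (φ g))
        (congrArg (fun z : E2 => (z : Ω)) hPη)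
        (by
          rw [towT, towK]
          exact congrArg (fun z : fixR EM σ => (z : Ω)) hξ)
        (by rw [one_pow, mul_one])
      obtain ⟨u, v, w, hne, hw⟩ := polys ht hK (f1 := f1 * C (a c)) (g1 := g1)
        (f2 := (X - C c) * C (a c)) hg1 (F1 := A * algebraMap k K (a c))
        (F2 := (t - algebraMap k K c) * algebraMap k K (a c))
        (by rw [map_mul, aeval_C, ← hfg]; ring)
        (by rw [map_mul, map_sub, aeval_C, aeval_X, aeval_C]) hr
      refine ⟨u, v, w, hne, ?_⟩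
      rw [hw]
      ring
    rcases interp hT a ha _ (f1 * g1) rfl (mul_ne_zero hf1 hg1) hRel with ⟨e, he, h⟩ | ⟨θ, h⟩
    · right
      refine ⟨e, he, fun c => ⟨hxk c, ?_⟩⟩
      obtain ⟨d, hd⟩ := h c
      refine Cl.of_sq (a c) (ha c) ?_
      have e1 : e * a c ^ 2 = a c * d ^ 2 := by rw [← hd]; ring
      rw [e1]
      have hd0 : d ≠ 0 := by
        rintro rfl
        rw [zero_pow two_ne_zero] at hd
        exact mul_ne_zero he (ha c) hd
      obtain ⟨w, hw⟩ := hcl c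
      refine ⟨w / algebraMap k _ d, ?_⟩
      have hd' : algebraMap k (fixR EM σ) d ≠ 0 := (_root_.map_ne_zero _).2 hd0
      rw [hw, map_mul, map_pow]
      field_simp
    · left
      refine ⟨θ, fun c hc => ⟨hxk c, ?_⟩⟩
      obtain ⟨d, hd⟩ := h c
      refine Cl.of_sq (a c) (ha c) ?_
      have e1 : (θ - c) * a c ^ 2 = a c * d ^ 2 := by rw [← hd]; ring
      rw [e1]
      have hd0 : d ≠ 0 := by
        rintro rfl
        rw [zero_pow two_ne_zero] at hd
        exact mul_ne_zero (sub_ne_zero.2 (Ne.symm hc)) (ha c) hd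
      obtain ⟨w, hw⟩ := hcl c
      refine ⟨w / algebraMap k _ d, ?_⟩
      have hd' : algebraMap k (fixR EM σ) d ≠ 0 := (_root_.map_ne_zero _).2 hd0
      rw [hw, map_mul, map_pow]
      field_simp

end

end Pool.Agent.Helper88.MU
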