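import Pool.Agent.Helper88.FT.U4
import Pool.Agent.Helper88.MU.Stm

/-!
# Finitely generated fields have the two properties
-/

set_option autoImplicit false

namespace Pool.Agent.Helper88.MU

/-- Cassels' embedding theorem (library) -/
theorem emb (K : Type) [Field K] [CharZero K] [Algebra.EssFiniteType ℚ K] (Z : Finset K) (n0 : ℕ) :
    ∃ (p : ℕ) (_ : Fact p.Prime) (φ : K →+* ℚ_[p]), n0 < p ∧ ∀ z ∈ Z, z ≠ 0 → ‖φ z‖ = 1 :=
  Pool.Agent.Helper88.FT.exists_padic (fun _ _ _ s => Pool.Agent.Q269.FG.cassels s) K Z n0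

section

variable {p : ℕ} [hp : Fact p.Prime]

open scoped Classical in
lemma mv_apply (x : ℚ_[p]) : Padic.mulValuation x =
    if x = 0 then 0 else WithZero.exp (-x.valuation) := rfl

lemma nonarch_sub (x y : ℚ_[p]) : ‖x - y‖ ≤ max ‖x‖ ‖y‖ := by
  have := Padic.nonarchimedean x (-y)
  rwa [norm_neg, ← sub_eq_add_neg] at this

lemma mv_iff (x : ℚ_[p]) : Padic.mulValuation x = 1 ↔ ‖x‖ = 1 := by
  by_cases hx : x = 0
  · simp [hx]
  · rw [Padic.norm_eq_zpow_neg_valuation hx, mv_apply, if_neg hx]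
    have h1 : (1 : ℝ) < p := by exact_mod_cast hp.1.one_lt
    rw [← WithZero.exp_zero, WithZero.exp_inj]
    constructor
    · intro h
      rw [h, zpow_zero]
    · intro h
      exact (zpow_eq_one_iff_right₀ (by linarith) h1.ne').1 h

lemma mv_le_iff (x : ℚ_[p]) : Padic.mulValuation x ≤ 1 ↔ ‖x‖ ≤ 1 := by
  by_cases hx : x = 0
  · simp [hx]
  · rw [Padic.norm_eq_zpow_neg_valuation hx, mv_apply, if_neg hx]
    have h1 : (1 : ℝ) < p := by exact_mod_cast hp.1.one_lt
    rw [← WithZero.exp_zero, WithZero.exp_le_exp]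
    constructor
    · intro h
      exact zpow_le_one_of_nonpos₀ h1.le h
    · intro h
      by_contra hcon
      push Not at hcon
      exact absurd h (not_le.2 (one_lt_zpow₀ h1 hcon))

lemma mv_lt_iff (x : ℚ_[p]) : Padic.mulValuation x < 1 ↔ ‖x‖ < 1 := by
  rw [lt_iff_le_and_ne, lt_iff_le_and_ne, mv_le_iff, Ne, Ne, mv_iff]

lemma exists_nonsq (hp2 : 2 < p) : ∃ n : ℤ, ¬ IsSquare (n : ZMod p) := by
  obtain ⟨a, ha⟩ := FiniteField.exists_nonsquare (F := ZMod p) (by
    rw [ZMod.ringChar_zmod_n]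
    omega)
  refine ⟨(a.val : ℤ), ?_⟩
  simpa using ha

/-- the norm form -/
lemma aniso {l : ℤ} (hl : ¬ IsSquare (l : ZMod p)) (w : ℚ_[p]) (hw : ‖w‖ ≤ 1) :
    ‖w ^ 2 - (l : ℚ_[p])‖ = 1 := by
  have hle : ‖w ^ 2 - (l : ℚ_[p])‖ ≤ 1 := by
    refine (nonarch_sub _ _).trans (max_le ?_ (Padic.norm_int_le_one l))
    rw [norm_pow]
    exact pow_le_one₀ (norm_nonneg _) hw
  by_contra hcon
  have hlt : ‖w ^ 2 - (l : ℚ_[p])‖ < 1 := lt_of_le_of_ne hle hcon
  let W : ℤ_[p] := ⟨w, hw⟩
  have h1 : ‖W ^ 2 - (l : ℤ_[p])‖ < 1 := by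
    rw [PadicInt.norm_def]
    push_cast
    exact hlt
  have h2 : PadicInt.toZMod (W ^ 2 - (l : ℤ_[p])) = 0 := by
    rw [← RingHom.mem_ker, PadicInt.ker_toZMod, IsLocalRing.mem_maximalIdeal, PadicInt.mem_nonunits]
    exact h1
  rw [map_sub, map_pow, map_intCast, sub_eq_zero] at h2
  exact hl ⟨PadicInt.toZMod W, by rw [← h2, sq]⟩

end

/-- **LAM for finitely generated fields** -/
theorem lam (k : Type) [Field k] [CharZero k] [Algebra.EssFiniteType ℚ k] : Lam k := by
  intro S hS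
  obtain ⟨p, hp, φ, hp2, hφ⟩ := emb k S 2
  obtain ⟨l, hl⟩ := exists_nonsq hp2
  obtain ⟨v, hv⟩ : ∃ v : Valuation k (WithZero (Multiplicative ℤ)),
      v = (Padic.mulValuation (p := p)).comap φ := ⟨_, rfl⟩
  have hvφ : ∀ x, v x = Padic.mulValuation (φ x) := fun x => by rw [hv]; rfl
  have key : ∀ w : k, v w ≤ 1 → v (w ^ 2 - (l : k)) = 1 := by
    intro w hw
    rw [hvφ, mv_iff, map_sub, map_pow, map_intCast]
    rw [hvφ, mv_le_iff] at hw
    exact aniso hl _ hw
  have hvl : v (l : k) = 1 := by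
    have := key 0 (by rw [map_zero]; exact zero_le_one)
    rw [zero_pow two_ne_zero, zero_sub, Valuation.map_neg] at this
    exact this
  have hv1l : v (1 - (l : k)) = 1 := by
    have := key 1 (by rw [map_one])
    rwa [one_pow] at this
  refine ⟨v, l, (p : k), fun e he => ?_, hvl, hv1l, ?_, fun u z => ?_⟩
  · rw [hvφ, mv_iff]
    exact hφ e he (hS e he)
  · rw [hvφ, map_natCast, mv_apply, if_neg (by exact_mod_cast hp.1.ne_zero),
      Padic.valuation_p]
  · by_cases hz : z = 0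
    · rw [hz, zero_pow two_ne_zero, mul_zero, sub_zero, map_zero, map_pow,
        max_eq_left zero_le]
    by_cases hu : u = 0
    · rw [hu, zero_pow two_ne_zero, zero_sub, Valuation.map_neg, map_zero, map_mul, map_pow, hvl,
        one_mul, max_eq_right zero_le]
    have hvz : v z ≠ 0 := (Valuation.ne_zero_iff _).2 hz
    have hvu : v u ≠ 0 := (Valuation.ne_zero_iff _).2 hu
    rcases le_total (v u) (v z) with h | h
    · rw [max_eq_right h]
      have e : u ^ 2 - (l : k) * z ^ 2 = z ^ 2 * ((u / z) ^ 2 - (l : k)) := by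
        field_simp
      rw [e, map_mul, map_pow, key (u / z) (by
        rw [map_div₀]
        exact div_le_one_of_le₀ h zero_le), mul_one]
    · rw [max_eq_left h]
      have e : u ^ 2 - (l : k) * z ^ 2 = u ^ 2 * (1 - (l : k) * (z / u) ^ 2) := by
        field_simp
      rw [e, map_mul, map_pow]
      have h1 : v (z / u) ≤ 1 := by
        rw [map_div₀]
        exact div_le_one_of_le₀ h zero_le
      have h2 : v (1 - (l : k) * (z / u) ^ 2) = 1 := by
        rcases h1.lt_or_eq with h3 | h3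
        · rw [Valuation.map_sub_eq_of_lt_left _ (by
            rw [map_mul, hvl, one_mul, map_pow, map_one]
            exact pow_lt_one₀ zero_le h3 two_ne_zero), map_one]
        · have h4 : z / u ≠ 0 := div_ne_zero hz hu
          have e2 : 1 - (l : k) * (z / u) ^ 2 = (z / u) ^ 2 * ((z / u)⁻¹ ^ 2 - (l : k)) := by
            field_simp
          rw [e2, map_mul, map_pow, h3, one_pow, one_mul]
          exact key _ (by rw [map_inv₀, h3, inv_one])
      rw [h2, mul_one]

/-- inside a finitely generated field -/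
lemma two_field (F : Type) [Field F] [CharZero F] [Algebra.EssFiniteType ℚ F] (t1 t2 : F)
    (h : t1 ≠ t2) : ∃ a : ℤ, (a : F) ≠ t2 ∧ ∀ w : F, t1 - (a : F) ≠ w ^ 2 * (t2 - (a : F)) := by
  classical
  obtain ⟨p, hp, φ, hp2, hφ⟩ := emb F {t1, t2, t1 - t2} 2
  obtain ⟨n, hn⟩ := exists_nonsq hp2
  have hle : ∀ t : F, t ∈ ({t1, t2, t1 - t2} : Finset F) → ‖φ t‖ ≤ 1 := by
    intro t ht
    by_cases h0 : t = 0
    · rw [h0, map_zero, norm_zero]
      exact zero_le_one
    · exact (hφ t ht h0).le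
  let T1 : ℤ_[p] := ⟨φ t1, hle t1 (by simp)⟩
  let T2 : ℤ_[p] := ⟨φ t2, hle t2 (by simp)⟩
  have h12 : ‖φ (t1 - t2)‖ = 1 := hφ _ (by simp) (sub_ne_zero.2 h)
  have hz0 : ∀ w : ℤ_[p], PadicInt.toZMod w = 0 ↔ ‖w‖ < 1 := by
    intro w
    rw [← RingHom.mem_ker, PadicInt.ker_toZMod, IsLocalRing.mem_maximalIdeal, PadicInt.mem_nonunits]
  set r1 : ZMod p := PadicInt.toZMod T1 with hr1
  set r2 : ZMod p := PadicInt.toZMod T2 with hr2
  have hr : r1 ≠ r2 := by
    intro h1
    have h2 : PadicInt.toZMod (T1 - T2) = 0 := by rw [map_sub, sub_eq_zero]; exact h1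
    rw [hz0] at h2
    have h3 : ‖T1 - T2‖ = 1 := by
      rw [PadicInt.norm_def]
      push_cast
      change ‖φ t1 - φ t2‖ = 1
      rw [← map_sub]
      exact h12
    linarith
  have hn1 : (1 : ZMod p) - (n : ZMod p) ≠ 0 := by
    intro h1
    apply hn
    rw [← sub_eq_zero.1 h1]
    exact ⟨1, by rw [mul_one]⟩
  set c : ZMod p := (r1 - n * r2) / (1 - n) with hc
  have hc1 : r1 - c = n * (r2 - c) := by
    rw [hc]
    field_simp
    ring
  have hc2 : r2 - c ≠ 0 := by
    intro h1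
    rw [h1, mul_zero] at hc1
    exact hr ((sub_eq_zero.1 hc1).trans (sub_eq_zero.1 h1).symm)
  have hcv : ((c.val : ℤ) : ZMod p) = c := by simp
  have hu2 : ‖φ t2 - ((c.val : ℤ) : ℚ_[p])‖ = 1 := by
    have h1 : PadicInt.toZMod (T2 - ((c.val : ℤ) : ℤ_[p])) ≠ 0 := by
      rw [map_sub, map_intCast, hcv]
      exact hc2
    rw [Ne, hz0, not_lt] at h1
    have h2 : ‖T2 - ((c.val : ℤ) : ℤ_[p])‖ = 1 := le_antisymm (PadicInt.norm_le_one _) h1
    rw [PadicInt.norm_def] at h2
    push_cast at h2 ⊢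
    exact h2
  refine ⟨(c.val : ℤ), ?_, ?_⟩
  · intro h1
    rw [← h1, map_intCast, sub_self, norm_zero] at hu2
    exact zero_ne_one hu2
  · intro w hw
    have h1 := congrArg φ hw
    rw [map_sub, map_mul, map_pow, map_sub, map_intCast] at h1
    have hn1' : ‖φ w‖ ≤ 1 := by
      have h2 : ‖φ w‖ ^ 2 ≤ 1 := by
        have h3 := congrArg norm h1
        rw [norm_mul, norm_pow, hu2, mul_one] at h3
        rw [← h3]
        refine (nonarch_sub _ _).trans (max_le (hle t1 (by simp)) ?_)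
        exact Padic.norm_int_le_one _
      exact (sq_le_one_iff₀ (norm_nonneg _)).1 h2
    let W : ℤ_[p] := ⟨φ w, hn1'⟩
    have h2 : T1 - ((c.val : ℤ) : ℤ_[p]) = W ^ 2 * (T2 - ((c.val : ℤ) : ℤ_[p])) := by
      apply Subtype.ext
      push_cast
      push_cast at h1
      exact h1
    have h3 := congrArg PadicInt.toZMod h2
    rw [map_mul, map_pow, map_sub, map_sub, map_intCast, hcv, ← hr1, ← hr2, hc1] at h3
    exact hn ⟨PadicInt.toZMod W, by rw [← sq]; exact mul_right_cancel₀ hc2 h3⟩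

/-- **TWO for finitely generated fields** -/
theorem two (k : Type) [Field k] [CharZero k] [Algebra.EssFiniteType ℚ k] : Two k := by
  intro Ω _ _ θ1 θ2 h1 h2 h
  let F := IntermediateField.adjoin k ({θ1, θ2} : Set Ω)
  have hfin : FiniteDimensional k F := by
    refine IntermediateField.finiteDimensional_adjoin fun x hx => ?_
    rcases hx with rfl | hx
    · exact h1.isIntegral
    · rw [Set.mem_singleton_iff] at hx
      rw [hx]
      exact h2.isIntegral
  have hc0 : CharZero F := charZero_of_injective_algebraMap (algebraMap k F).injective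
  have hess : Algebra.EssFiniteType ℚ F := Algebra.EssFiniteType.comp ℚ k F
  have m1 : θ1 ∈ F := IntermediateField.subset_adjoin k _ (by simp)
  have m2 : θ2 ∈ F := IntermediateField.subset_adjoin k _ (by simp)
  obtain ⟨a, hc, hw⟩ := two_field F ⟨θ1, m1⟩ ⟨θ2, m2⟩
    (fun hh => h (congrArg (Subtype.val) hh))
  have key : ((a : F) : Ω) = algebraMap k Ω (a : k) := by
    rw [map_intCast]
    push_cast
    rfl
  refine ⟨(a : k), ?_, ?_⟩
  · intro hh
    apply hc
    apply Subtype.ext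
    rw [key]
    exact hh
  · intro w hwF hh
    apply hw ⟨w, hwF⟩
    apply Subtype.ext
    show θ1 - ((a : F) : Ω) = w ^ 2 * (θ2 - ((a : F) : Ω))
    rw [key]
    exact hh

end Pool.Agent.Helper88.MU
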